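import Pool.Agent.W811.LW.Stm

set_option autoImplicit false
open Finset Filter Topology
open scoped ENNReal

namespace Pool.Agent.W480.LW

open Pool.Agent.W811.LW

lemma et_nonneg (G : ℕ) (i : ℤ) : 0 ≤ et (G : ℝ) i := by
  unfold et
  split_ifs <;> positivity

lemma rs_nonneg (y : ℝ) : 0 ≤ rs y := by
  unfold rs; positivity

lemma rs_le (D x y : ℝ) (hD : 1 ≤ D) (hx : 0 < x) (hy : 0 < y) (h : y ≤ 2 * D ^ 2 * x) :
    rs x ≤ 2 * D * rs y := by
  unfold rs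
  have h1 : Real.sqrt y ≤ 2 * D * Real.sqrt x := by
    apply Real.sqrt_le_iff.2
    refine ⟨by positivity, ?_⟩
    rw [mul_pow, Real.sq_sqrt hx.le]
    nlinarith [mul_pos (pow_pos (lt_of_lt_of_le one_pos hD) 2) hx]
  have hsx : 0 < Real.sqrt x := Real.sqrt_pos.2 hx
  have hsy : 0 < Real.sqrt y := Real.sqrt_pos.2 hy
  rw [← div_eq_mul_inv, ← one_div, div_le_div_iff₀ hsx hsy]
  linarith

lemma rs_G (G : ℕ) : rs ((G : ℝ) ^ 4) = ((G : ℝ) ^ 2)⁻¹ := by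
  unfold rs
  have : (G : ℝ) ^ 4 = ((G : ℝ) ^ 2) ^ 2 := by ring
  rw [this, Real.sqrt_sq (by positivity)]

lemma zp (D : ℝ) (hD : 0 < D) (j m : ℕ) :
    D ^ (-2 * ((m : ℤ) - (j : ℤ))) = D ^ (2 * j) / D ^ (2 * m) := by
  rw [← zpow_natCast D (2 * j), ← zpow_natCast D (2 * m), ← zpow_sub₀ hD.ne']
  congr 1
  push_cast
  ring

theorem sv1 (h : CLV1) (hp : POS) (hd : DVL) (hk : KERN) : SV1 := by
  intro G c0 hG hc0 hc1
  have hGr : (1000 : ℝ) ≤ G := by exact_mod_cast hG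
  have hG0 : (0 : ℝ) < G := by linarith
  have hDc : ((G ^ 4 : ℕ) : ℝ) = (G : ℝ) ^ 4 := by push_cast; ring
  have hD2 : 2 ≤ G ^ 4 := by
    calc 2 ≤ G := by omega
      _ = G ^ 1 := (pow_one G).symm
      _ ≤ G ^ 4 := Nat.pow_le_pow_right (by omega) (by norm_num)
  have hD1 : (1 : ℝ) ≤ (G : ℝ) ^ 4 := one_le_pow₀ (by linarith)
  have hD0 : (0 : ℝ) < (G : ℝ) ^ 4 := by positivity
  have hp10 : (1 : ℝ) ≤ ((G : ℝ) ^ 4) ^ 10 := one_le_pow₀ hD1
  have hp4 : (1 : ℝ) ≤ ((G : ℝ) ^ 4) ^ 4 := one_le_pow₀ hD1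
  obtain ⟨M, hM0, hM⟩ := hk G (c0 / (1024 * ((G : ℝ) ^ 4) ^ 10)) (128 * ((G : ℝ) ^ 4) ^ 10)
    (16 * ((G : ℝ) ^ 4) ^ 4) (2 * (G : ℝ) ^ 4) hG (by positivity) (by linarith) (by linarith)
    (by linarith)
  refine ⟨M, hM0, ?_⟩
  intro α β j t hα hβ
  set bd : ℕ → ℝ := fun d => β + (d : ℝ) / ((G : ℝ) ^ 4) ^ (2 * (j + t) + 2) with hbd
  set y : ℕ → ℝ := fun m => yV ((G : ℝ) ^ 4) α j t β m with hy
  set z : ℕ → ℝ := fun m => yW ((G : ℝ) ^ 4) α j t β m with hz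
  set idx : ℕ → ℤ := fun m => (m : ℤ) - (j : ℤ) with hidx
  set idx' : ℕ → ℤ := fun m => (j : ℤ) - (m : ℤ) with hidx'
  set T : ℕ → ℝ := fun m => (1 / ((G : ℝ) ^ 4) ^ 2) *
    ∑ d ∈ range ((G ^ 4) ^ 2), et (G : ℝ) (idx m) * rs (yV ((G : ℝ) ^ 4) α j (t + 1) (bd d) m)
    with hT
  have hy0 : ∀ m, 0 < y m := by
    intro m
    have := (hp (G ^ 4) α c0 β j t m hD2 hc0 hα).2.2.1
    rwa [hDc] at this
  have hz0 : ∀ m, 0 < z m := by
    intro m
    have := (hp (G ^ 4) α c0 β j t m hD2 hc0 hα).2.2.2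
    rwa [hDc] at this
  have hinj : Function.Injective idx := by
    intro a b hab
    simp only [hidx] at hab
    omega
  have halt : ∀ m, T m ≤ (1 / 48) * (et (G : ℝ) (idx m) * rs (y m)) ∨
      (T m ≤ (2 * (G : ℝ) ^ 4) * (et (G : ℝ) (idx m) * rs (y m)) ∧
      (c0 / (1024 * ((G : ℝ) ^ 4) ^ 10) ≤ ((G : ℝ) ^ 4) ^ (-2 * idx m) * (y m) ^ 2 ∨
        ∃ m', ((G : ℝ) ^ 4) ^ (-2 * idx' m') ≤ (128 * ((G : ℝ) ^ 4) ^ 10) * (y m) ^ 2 ∧
          z m' ≤ (16 * ((G : ℝ) ^ 4) ^ 4) * ((G : ℝ) ^ 4) ^ (-2 * idx m) * y m)) := by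
    intro m
    have hc := h (G ^ 4) c0 α β j t m hD2 hc0 hα
    simp only [hDc] at hc
    obtain ⟨hc1', hc2⟩ := hc
    have hcard : ((range ((G ^ 4) ^ 2)).card : ℝ) = ((G : ℝ) ^ 4) ^ 2 := by
      rw [card_range]; push_cast; ring
    have he := et_nonneg G (idx m)
    rcases hc2 with hgood | ⟨v, hv, w, hw, hcr, hnv, hnw⟩
    · left
      have : T m = et (G : ℝ) (idx m) * ((1 / ((G : ℝ) ^ 4) ^ 2) *
          ∑ d ∈ range ((G ^ 4) ^ 2), rs (yV ((G : ℝ) ^ 4) α j (t + 1) (bd d) m)) := by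
        simp only [hT]
        rw [← mul_sum]; ring
      rw [this]
      have h2 : (1 / ((G : ℝ) ^ 4) ^ 2) *
          ∑ d ∈ range ((G ^ 4) ^ 2), rs (yV ((G : ℝ) ^ 4) α j (t + 1) (bd d) m) ≤
          16 * rs ((G : ℝ) ^ 4) * rs (y m) := by
        calc (1 / ((G : ℝ) ^ 4) ^ 2) *
          ∑ d ∈ range ((G ^ 4) ^ 2), rs (yV ((G : ℝ) ^ 4) α j (t + 1) (bd d) m)
            ≤ (1 / ((G : ℝ) ^ 4) ^ 2) * (((G : ℝ) ^ 4) ^ 2 * (16 * rs ((G : ℝ) ^ 4) * rs (y m))) :=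
              mul_le_mul_of_nonneg_left hgood (by positivity)
          _ = 16 * rs ((G : ℝ) ^ 4) * rs (y m) := by field_simp
      have h3 : 16 * rs ((G : ℝ) ^ 4) ≤ 1 / 48 := by
        rw [rs_G, ← div_eq_mul_inv, div_le_div_iff₀ (by positivity) (by norm_num)]
        nlinarith
      have hr := rs_nonneg (y m)
      calc et (G : ℝ) (idx m) * ((1 / ((G : ℝ) ^ 4) ^ 2) *
          ∑ d ∈ range ((G ^ 4) ^ 2), rs (yV ((G : ℝ) ^ 4) α j (t + 1) (bd d) m))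
          ≤ et (G : ℝ) (idx m) * (16 * rs ((G : ℝ) ^ 4) * rs (y m)) :=
            mul_le_mul_of_nonneg_left h2 he
        _ ≤ et (G : ℝ) (idx m) * (1 / 48 * rs (y m)) :=
            mul_le_mul_of_nonneg_left (mul_le_mul_of_nonneg_right h3 hr) he
        _ = 1 / 48 * (et (G : ℝ) (idx m) * rs (y m)) := by ring
    · right
      constructor
      · have hterm : ∀ d ∈ range ((G ^ 4) ^ 2),
            et (G : ℝ) (idx m) * rs (yV ((G : ℝ) ^ 4) α j (t + 1) (bd d) m) ≤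
            et (G : ℝ) (idx m) * (2 * (G : ℝ) ^ 4 * rs (y m)) := by
          intro d hdm
          have hq := hc1' d (mem_range.1 hdm)
          exact mul_le_mul_of_nonneg_left
            (rs_le _ _ _ hD1 hq.1 (hy0 m) hq.2) he
        have hs := sum_le_card_nsmul _ _ _ hterm
        rw [nsmul_eq_mul, hcard] at hs
        calc T m ≤ (1 / ((G : ℝ) ^ 4) ^ 2) *
            (((G : ℝ) ^ 4) ^ 2 * (et (G : ℝ) (idx m) * (2 * (G : ℝ) ^ 4 * rs (y m)))) :=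
              mul_le_mul_of_nonneg_left hs (by positivity)
          _ = 2 * (G : ℝ) ^ 4 * (et (G : ℝ) (idx m) * rs (y m)) := by field_simp
      · have hq := hd (G ^ 4) c0 α β j t m (y m) v w hD2 hc0 hc1 hα (by rw [hDc]; exact hβ)
          (hy0 m) (by rw [hDc]; exact hv) (by rw [hDc]; exact hw) hcr
          (by rw [hDc]; exact hnv) (by rw [hDc]; exact hnw)
        simp only [hDc] at hq
        rcases hq with hq | ⟨m', hm1, hm2⟩
        · left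
          simp only [hidx]
          rw [zp _ hD0]
          exact hq
        · right
          refine ⟨m', ?_, ?_⟩
          · simp only [hidx']
            rw [zp _ hD0]
            exact hm1
          · simp only [hidx]
            rw [zp _ hD0]
            exact hm2
  have hfin := hM idx idx' y z T hinj hy0 hz0 halt
  have hFV : ∀ d, FV G α j (t + 1) (bd d) =
      ∑' m : ℕ, ENNReal.ofReal (et (G : ℝ) (idx m) * rs (yV ((G : ℝ) ^ 4) α j (t + 1) (bd d) m)) := by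
    intro d; rfl
  have hsum : ∑ d ∈ range ((G ^ 4) ^ 2), FV G α j (t + 1) (bd d) =
      (((G ^ 4) ^ 2 : ℕ) : ℝ≥0∞) * ∑' m, ENNReal.ofReal (T m) := by
    simp only [hFV]
    rw [← Summable.tsum_finsetSum (fun i _ => ENNReal.summable), ← ENNReal.tsum_mul_left]
    congr 1
    funext m
    rw [← ENNReal.ofReal_sum_of_nonneg (fun d _ => mul_nonneg (et_nonneg G _) (rs_nonneg _))]
    rw [← ENNReal.ofReal_natCast, ← ENNReal.ofReal_mul (by positivity)]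
    congr 1
    simp only [hT]
    push_cast
    field_simp
  change ∑ d ∈ range ((G ^ 4) ^ 2), FV G α j (t + 1) (bd d) ≤ _
  rw [hsum]
  exact mul_le_mul_right hfin _

end Pool.Agent.W480.LW
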